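import Mathlib

/-! Inertia groups and rings of invariants. -/

set_option autoImplicit false
set_option linter.style.haveILetI false

open Pointwise

namespace Pool.Agent.Helper44x.IL

/-- If an element `γ` of the normalizer of `H` acts trivially on the quotient of the invariants of
`H` by the prime ideal below `Q`, then an element of the coset `H γ` acts trivially modulo `Q`. -/
theorem inertia_lift {A B G : Type*} [CommRing A] [CommRing B] [Algebra A B] [Group G] [Finite G]
    [MulSemiringAction G B] (H : Subgroup G) [Algebra.IsInvariant A B H] [SMulCommClass H A B]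
    (γ : G) (hγ' : ∀ a : A, ∃ a' : A, γ⁻¹ • algebraMap A B a = algebraMap A B a')
    (Q : Ideal B) [hQ : Q.IsPrime] (hP : ∀ a : A, γ • algebraMap A B a - algebraMap A B a ∈ Q) :
    ∃ h ∈ H, ∀ b : B, (h * γ) • b - b ∈ Q := by
  classical
  have hQ' : (γ • Q).IsPrime := hQ.smul γ
  have h1 : (γ • Q).under A = Q.under A := by
    ext a
    rw [Ideal.under_def, Ideal.under_def, Ideal.mem_comap, Ideal.mem_comap,
      Ideal.mem_pointwise_smul_iff_inv_smul_mem]
    obtain ⟨a', ha'⟩ := hγ' a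
    have h2 := hP a'
    rw [← ha', smul_inv_smul] at h2
    constructor
    · intro h3
      have h4 := Q.add_mem h2 h3
      rwa [sub_add_cancel] at h4
    · intro h3
      have h4 := Q.sub_mem h3 h2
      rwa [sub_sub_cancel] at h4
  obtain ⟨h, hh⟩ := Algebra.IsInvariant.exists_smul_of_under_eq A B H (γ • Q) Q h1
  set δ : G := (h : G) * γ with hδ
  have hδQ : δ • Q = Q := by
    rw [hδ, mul_smul]
    exact hh.symm
  have hmem : ∀ b : B, δ • b ∈ Q ↔ b ∈ Q := by
    intro b
    conv_lhs => rw [← hδQ]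
    exact Ideal.smul_mem_pointwise_smul_iff
  let P : Ideal A := Q.under A
  haveI : Q.LiesOver P := ⟨rfl⟩
  have hcommH : ∀ (h' : H) (a : A), (h' : G) • algebraMap A B a = algebraMap A B a := by
    intro h' a
    have h3 : h' • (a • (1 : B)) = a • (h' • (1 : B)) := smul_comm h' a (1 : B)
    rw [smul_one, Algebra.smul_def, mul_one] at h3
    exact h3
  let f0 : B ≃+* B := MulSemiringAction.toRingEquiv G B δ
  have hmap : Q = Q.map (f0 : B →+* B) := by
    have h3 : Q.map (f0 : B →+* B) = Q.comap (f0.symm : B →+* B) := Ideal.map_comap_of_equiv f0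
    rw [h3]
    ext b
    rw [Ideal.mem_comap]
    change b ∈ Q ↔ δ⁻¹ • b ∈ Q
    rw [← hmem (δ⁻¹ • b), smul_inv_smul]
  let f1 : (B ⧸ Q) ≃+* (B ⧸ Q) := Ideal.quotientEquiv Q Q f0 hmap
  have hf1 : ∀ b, f1 (Ideal.Quotient.mk Q b) = Ideal.Quotient.mk Q (δ • b) := fun b => rfl
  let f : (B ⧸ Q) ≃ₐ[A ⧸ P] (B ⧸ Q) := AlgEquiv.ofRingEquiv (f := f1) (by
    intro x
    obtain ⟨a, rfl⟩ := Ideal.Quotient.mk_surjective x
    rw [Ideal.Quotient.algebraMap_mk_of_liesOver]
    rw [hf1, Ideal.Quotient.eq]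
    have h3 : δ • algebraMap A B a - algebraMap A B a =
        (h : G) • (γ • algebraMap A B a - algebraMap A B a) := by
      rw [smul_sub, hcommH h a, hδ, mul_smul]
    rw [h3]
    have h4 := hP a
    rw [hh]
    have h5 : (h : G) • (γ • algebraMap A B a - algebraMap A B a) ∈ (h : G) • (γ • Q) ↔
        (γ • algebraMap A B a - algebraMap A B a) ∈ γ • Q := Ideal.smul_mem_pointwise_smul_iff
    refine h5.2 ?_
    rw [Ideal.mem_pointwise_smul_iff_inv_smul_mem, smul_sub, inv_smul_smul]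
    obtain ⟨a', ha'⟩ := hγ' a
    have h6 := hP a'
    rw [← ha', smul_inv_smul] at h6
    exact h6)
  obtain ⟨g', hg'⟩ := Ideal.Quotient.stabilizerHom_surjective H P Q f
  have hg'Q : ((g' : H) : G) • Q = Q := g'.2
  refine ⟨((g' : H) : G)⁻¹ * h, H.mul_mem (H.inv_mem (g' : H).2) h.2, fun b => ?_⟩
  have h3 : (Ideal.Quotient.stabilizerHom Q P H g') (Ideal.Quotient.mk Q b) =
      Ideal.Quotient.mk Q (((g' : H) : G) • b) := Ideal.Quotient.stabilizerHom_apply Q P H g' b
  rw [hg'] at h3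
  have h4 : Ideal.Quotient.mk Q (δ • b) = Ideal.Quotient.mk Q (((g' : H) : G) • b) := h3
  rw [Ideal.Quotient.eq] at h4
  have h5 : (((g' : H) : G)⁻¹ * h * γ) • b - b =
      ((g' : H) : G)⁻¹ • (δ • b - ((g' : H) : G) • b) := by
    rw [smul_sub, inv_smul_smul, hδ, ← mul_smul, mul_assoc]
  rw [h5, ← Ideal.mem_pointwise_smul_iff_inv_smul_mem, hg'Q]
  exact h4

end Pool.Agent.Helper44x.IL
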