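import Mathlib

/-! Interpolation for automorphisms of order `p` which are congruent to the identity. -/

set_option autoImplicit false

namespace Pool.Agent.Helper44x.IL

open Polynomial

section trace

variable {S : Type*} [CommRing S] {p : ℕ} (τ : S →+* S)

/-- the trace -/
def tra (p : ℕ) (c : S) : S := ∑ i ∈ Finset.range p, τ^[i] c

theorem zmod_id (p : ℕ) (hp : p.Prime) :
    ((X : (ZMod p)[X]) - 1) ^ (p - 1) = ∑ i ∈ Finset.range p, (X : (ZMod p)[X]) ^ i := by
  haveI : Fact p.Prime := ⟨hp⟩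
  have h0 : ((X : (ZMod p)[X]) - 1) ≠ 0 := X_sub_C_ne_zero (1 : ZMod p)
  apply mul_left_cancel₀ h0
  have h1 : ((X : (ZMod p)[X]) - 1) * ((X : (ZMod p)[X]) - 1) ^ (p - 1) = (X - 1) ^ p := by
    rw [← pow_succ', Nat.sub_add_cancel hp.one_lt.le]
  rw [h1, sub_pow_char, one_pow, mul_comm, geom_sum_mul]

theorem tra_eq (hp : p.Prime) (hpS : (p : S) = 0) (c : S) :
    tra τ p c = (fun f => τ f - f)^[p - 1] c := by
  haveI : Fact p.Prime := ⟨hp⟩
  rcases subsingleton_or_nontrivial S with hs | hs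
  · exact Subsingleton.elim _ _
  haveI : CharP S p := by
    refine (CharP.charP_iff_prime_eq_zero hp).2 hpS
  letI : Algebra (ZMod p) S := ZMod.algebra S p
  let T : Module.End (ZMod p) S := (τ : S →+ S).toZModLinearMap p
  have hT : ∀ f, T f = τ f := fun f => rfl
  have hTi : ∀ (i : ℕ) f, (T ^ i) f = τ^[i] f := by
    intro i
    induction i with
    | zero => intro f; rfl
    | succ i ih =>
      intro f
      rw [pow_succ, Module.End.mul_apply, ih, Function.iterate_succ_apply, hT]
  have h1 := congrArg (fun P => (aeval T P : Module.End (ZMod p) S) c) (zmod_id p hp)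
  simp only [map_pow, map_sub, aeval_X, map_one, map_sum] at h1
  rw [LinearMap.sum_apply] at h1
  have h2 : ∀ (j : ℕ) f, ((T - 1) ^ j) f = (fun f => τ f - f)^[j] f := by
    intro j
    induction j with
    | zero => intro f; rfl
    | succ j ih =>
      intro f
      rw [pow_succ, Module.End.mul_apply, ih, Function.iterate_succ_apply]
      rfl
  rw [h2] at h1
  rw [h1]
  exact Finset.sum_congr rfl fun i _ => (hTi i c).symm

theorem map_tra (hp : p.Prime) (hτ : ∀ f, τ^[p] f = f) (c : S) : τ (tra τ p c) = tra τ p c := by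
  unfold tra
  obtain ⟨n, hn⟩ : ∃ n, p = n + 1 := ⟨p - 1, by have := hp.one_lt; omega⟩
  rw [map_sum]
  have h1 : ∀ i, τ (τ^[i] c) = τ^[i + 1] c := fun i => (Function.iterate_succ_apply' τ i c).symm
  simp_rw [h1]
  rw [hn, Finset.sum_range_succ, Finset.sum_range_succ' (fun i => τ^[i] c), ← hn, hτ]
  rfl

end trace

section interp

variable {S κ : Type*} [CommRing S] [IsDomain S] [Field κ] {p : ℕ} (hp : p.Prime)
  (hpS : (p : S) = 0) (τ : S →+* S) (hτ : ∀ f, τ^[p] f = f) (t : S) (ht : τ t = t) (ht0 : t ≠ 0)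
  (θ : S → S) (hθ : ∀ f, τ f - f = t * θ f) (π : S →+* κ) (hπt : π t = 0)

include ht hθ in
theorem iter_theta (j : ℕ) (c : S) : (fun f => τ f - f)^[j] c = t ^ j * θ^[j] c := by
  induction j with
  | zero => simp
  | succ j ih =>
    rw [Function.iterate_succ_apply', ih, Function.iterate_succ_apply']
    change τ (t ^ j * θ^[j] c) - t ^ j * θ^[j] c = _
    rw [map_mul, map_pow, ht, ← mul_sub, hθ]
    ring

include ht ht0 hθ hp hpS in
theorem tra_theta (c : S) : tra τ p c = t ^ (p - 1) * θ^[p - 1] c := by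
  rw [tra_eq τ hp hpS, iter_theta τ t ht θ hθ]

include ht ht0 hθ hp hpS hτ in
theorem fixed_theta (c : S) : τ (θ^[p - 1] c) = θ^[p - 1] c := by
  have h1 := map_tra τ hp hτ c
  rw [tra_theta hp hpS τ t ht ht0 θ hθ, map_mul, map_pow, ht] at h1
  exact mul_left_cancel₀ (pow_ne_zero _ ht0) h1

include hθ hπt in
theorem pi_iter (i : ℕ) (y : S) : π (τ^[i] y) = π y := by
  induction i with
  | zero => rfl
  | succ i ih =>
    rw [Function.iterate_succ_apply']
    have h1 : τ (τ^[i] y) = τ^[i] y + t * θ (τ^[i] y) := by rw [← hθ]; ring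
    rw [h1, map_add, map_mul, hπt, zero_mul, add_zero, ih]

include ht hθ hπt in
theorem exists_u (x : S) (j : ℕ) : ∃ u, τ^[j] x - x = t * u ∧ π u = j * π (θ x) := by
  induction j with
  | zero => exact ⟨0, by simp, by simp⟩
  | succ j ih =>
    obtain ⟨u, hu, hπu⟩ := ih
    refine ⟨τ^[j] (θ x) + u, ?_, ?_⟩
    · have h1 : τ^[j + 1] x = τ^[j] (τ x) := Function.iterate_succ_apply τ j x
      have h2 : τ x = x + t * θ x := by rw [← hθ]; ring
      have h3 : τ^[j] (t * θ x) = t * τ^[j] (θ x) := by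
        rw [iterate_map_mul, Function.iterate_fixed ht]
      rw [h1, h2, iterate_map_add, h3, mul_add, ← hu]
      ring
    · rw [map_add, pi_iter τ t θ hθ π hπt, hπu]
      push_cast
      ring

/-- The polynomial of the conjugates. -/
noncomputable def QQ (p : ℕ) (x : S) : S[X] := ∏ j ∈ Finset.Ico 1 p, (X - C (τ^[j] x))

theorem natDegree_QQ (hp : p.Prime) (x : S) : (QQ τ p x).natDegree < p := by
  unfold QQ
  rw [natDegree_prod_of_monic _ _ fun i _ => monic_X_sub_C _]
  simp only [natDegree_X_sub_C, Finset.sum_const, Nat.card_Ico, smul_eq_mul, mul_one]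
  have := hp.pos
  omega

/-- the iterates as ring homomorphisms -/
def itr (τ : S →+* S) : ℕ → (S →+* S)
  | 0 => RingHom.id S
  | n + 1 => τ.comp (itr τ n)

theorem itr_apply (i : ℕ) (x : S) : itr τ i x = τ^[i] x := by
  induction i with
  | zero => rfl
  | succ i ih => rw [Function.iterate_succ_apply', ← ih]; rfl

include hp hτ in
theorem sum_identity (c x : S) :
    ∑ m ∈ Finset.range p, tra τ p (c * (QQ τ p x).coeff m) * x ^ m = c * (QQ τ p x).eval x := by
  have h1 : ∀ i, ((QQ τ p x).map (itr τ i)).eval x =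
      ∑ m ∈ Finset.range p, τ^[i] ((QQ τ p x).coeff m) * x ^ m := by
    intro i
    rw [eval_eq_sum_range' (n := p) (lt_of_le_of_lt natDegree_map_le (natDegree_QQ τ hp x))]
    refine Finset.sum_congr rfl fun m _ => ?_
    rw [coeff_map, itr_apply]
  have h2 : ∀ i ∈ Finset.range p, i ≠ 0 → ((QQ τ p x).map (itr τ i)).eval x = 0 := by
    intro i hi hi0
    rw [Finset.mem_range] at hi
    unfold QQ
    rw [Polynomial.map_prod, eval_prod]
    apply Finset.prod_eq_zero (i := p - i) (Finset.mem_Ico.2 ⟨by omega, by omega⟩)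
    rw [Polynomial.map_sub, map_X, map_C, eval_sub, eval_X, eval_C, itr_apply,
      ← Function.iterate_add_apply]
    have h3 : i + (p - i) = p := by omega
    rw [h3, hτ, sub_self]
  calc ∑ m ∈ Finset.range p, tra τ p (c * (QQ τ p x).coeff m) * x ^ m
      = ∑ m ∈ Finset.range p, ∑ i ∈ Finset.range p,
          τ^[i] c * (τ^[i] ((QQ τ p x).coeff m) * x ^ m) := by
        refine Finset.sum_congr rfl fun m _ => ?_
        unfold tra
        rw [Finset.sum_mul]
        refine Finset.sum_congr rfl fun i _ => ?_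
        rw [iterate_map_mul, mul_assoc]
    _ = ∑ i ∈ Finset.range p, τ^[i] c * ((QQ τ p x).map (itr τ i)).eval x := by
        rw [Finset.sum_comm]
        refine Finset.sum_congr rfl fun i _ => ?_
        rw [h1, Finset.mul_sum]
    _ = c * (QQ τ p x).eval x := by
        rw [Finset.sum_eq_single 0]
        · have h4 : (QQ τ p x).map (itr τ 0) = QQ τ p x := Polynomial.map_id
          rw [h4]
          rfl
        · intro i hi hi0
          rw [h2 i hi hi0, mul_zero]
        · intro h
          exact absurd (Finset.mem_range.2 hp.pos) h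

include hp hpS hτ ht ht0 hθ hπt in
/-- Interpolation. -/
theorem interp (x : S) (hx : π (θ x) ≠ 0) : ∃ η : S, τ η = η ∧ π η ≠ 0 ∧
    ∀ f, ∃ e : ℕ → S, (∀ m, τ (e m) = e m) ∧ η * f = ∑ m ∈ Finset.range p, e m * x ^ m := by
  classical
  choose u hu hπu using exists_u τ t ht θ hθ π hπt x
  let U : S := ∏ j ∈ Finset.Ico 1 p, (-u j)
  let N' : S := ∏ i ∈ Finset.Ico 1 p, τ^[i] U
  have hpκ : (p : κ) = 0 := by rw [← map_natCast π, hpS, map_zero]
  haveI : CharP κ p := (CharP.charP_iff_prime_eq_zero hp).2 hpκ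
  have hU : π U ≠ 0 := by
    change π (∏ j ∈ Finset.Ico 1 p, (-u j)) ≠ 0
    rw [map_prod, Finset.prod_ne_zero_iff]
    intro j hj
    rw [Finset.mem_Ico] at hj
    rw [map_neg, hπu, neg_ne_zero]
    refine mul_ne_zero ?_ hx
    intro h
    rw [CharP.cast_eq_zero_iff κ p] at h
    exact absurd (Nat.le_of_dvd (by omega) h) (by omega)
  have hη : U * N' = ∏ i ∈ Finset.range p, τ^[i] U := by
    rw [Finset.range_eq_Ico, Finset.prod_eq_prod_Ico_succ_bot hp.pos]
    rfl
  have hQ : (QQ τ p x).eval x = t ^ (p - 1) * U := by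
    unfold QQ
    rw [eval_prod]
    have h1 : ∀ j ∈ Finset.Ico 1 p, eval x (X - C (τ^[j] x)) = t * (-u j) := by
      intro j _
      rw [eval_sub, eval_X, eval_C]
      linear_combination -(hu j)
    rw [Finset.prod_congr rfl h1, Finset.prod_mul_distrib, Finset.prod_const, Nat.card_Ico]
  refine ⟨U * N', ?_, ?_, fun f => ?_⟩
  · rw [hη, map_prod]
    obtain ⟨n, hn⟩ : ∃ n, p = n + 1 := ⟨p - 1, by have := hp.one_lt; omega⟩
    have h1 : ∀ i, τ (τ^[i] U) = τ^[i + 1] U := fun i =>
      (Function.iterate_succ_apply' τ i U).symm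
    simp_rw [h1]
    rw [hn, Finset.prod_range_succ, Finset.prod_range_succ' (fun i => τ^[i] U), ← hn, hτ]
    rfl
  · rw [hη, map_prod, Finset.prod_ne_zero_iff]
    intro i _
    rw [pi_iter τ t θ hθ π hπt]
    exact hU
  · refine ⟨fun m => θ^[p - 1] (f * N' * (QQ τ p x).coeff m), fun m =>
      fixed_theta hp hpS τ hτ t ht ht0 θ hθ _, ?_⟩
    apply mul_left_cancel₀ (pow_ne_zero (p - 1) ht0)
    have h1 := sum_identity hp τ hτ (f * N') x
    rw [hQ] at h1
    rw [Finset.mul_sum]
    have h2 : ∀ m ∈ Finset.range p, tra τ p (f * N' * (QQ τ p x).coeff m) * x ^ m =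
        t ^ (p - 1) * (θ^[p - 1] (f * N' * (QQ τ p x).coeff m) * x ^ m) := by
      intro m _
      rw [tra_theta hp hpS τ t ht ht0 θ hθ]
      ring
    rw [← Finset.sum_congr rfl h2, h1]
    ring

include hp hpS hτ ht ht0 hθ hπt in
/-- A derivation to a residue field which vanishes on the invariants and at a coordinate is
zero. -/
theorem der_zero (x : S) (hx : π (θ x) ≠ 0) (w : S → κ) (hwa : ∀ f g, w (f + g) = w f + w g)
    (hwm : ∀ f g, w (f * g) = w f * π g + π f * w g) (hw0 : ∀ f, τ f = f → w f = 0)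
    (hwx : w x = 0) (f : S) : w f = 0 := by
  obtain ⟨η, hη, hπη, h⟩ := interp hp hpS τ hτ t ht ht0 θ hθ π hπt x hx
  obtain ⟨e, he, hf⟩ := h f
  have hz : w 0 = 0 := by
    have h1 := hwa 0 0
    rw [add_zero] at h1
    exact left_eq_add.1 h1
  have h1w : w 1 = 0 := hw0 1 (map_one τ)
  have hxm : ∀ m : ℕ, w (x ^ m) = 0 := by
    intro m
    induction m with
    | zero => rw [pow_zero, h1w]
    | succ m ih => rw [pow_succ, hwm, ih, hwx, zero_mul, mul_zero, add_zero]
  have hs : ∀ s : Finset ℕ, w (∑ m ∈ s, e m * x ^ m) = 0 := by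
    intro s
    classical
    induction s using Finset.induction_on with
    | empty => rw [Finset.sum_empty, hz]
    | insert a s ha ih =>
      rw [Finset.sum_insert ha, hwa, ih, hwm, hw0 _ (he a), hxm, zero_mul, mul_zero, add_zero,
        add_zero]
  have h2 := hs (Finset.range p)
  rw [← hf, hwm, hw0 _ hη, zero_mul, zero_add] at h2
  exact (mul_eq_zero.1 h2).resolve_left hπη

end interp

end Pool.Agent.Helper44x.IL
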