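import Pool.Agent.Helper44x.IL.Rees
import Pool.Agent.Helper44x.IL.Inertia
import Pool.Agent.Y177.Dg.Grp

/-! Independent leading forms: the leading forms on the rings of invariants. -/

set_option autoImplicit false
set_option linter.style.haveILetI false
set_option linter.unusedSectionVars false

open Pool.Agent.H519R3.RS Pool.Agent.Y177.Dg

universe u

namespace Pool.Agent.Helper44x.IL

/-- A chain of subgroups with factors of order `p` and generators. -/
structure Flag {G : Type} [Group G] (p n : ℕ) (H : ℕ → Subgroup G) (g : ℕ → G) : Prop where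
  bot : H 0 = ⊥
  le : ∀ i < n, H i ≤ H (i + 1)
  mem : ∀ i < n, g i ∈ H (i + 1)
  notMem : ∀ i < n, g i ∉ H i
  conj : ∀ i < n, ∀ h ∈ H i, g i * h * (g i)⁻¹ ∈ H i
  conj' : ∀ i < n, ∀ h ∈ H i, (g i)⁻¹ * h * g i ∈ H i
  pow : ∀ i < n, g i ^ p ∈ H i
  gen : ∀ i < n, ∀ x ∈ H (i + 1), ∃ m : ℕ, ∃ h ∈ H i, x = h * g i ^ m

/-- The determinants of the differences. -/
def dets {B : Type u} [CommRing B] {n : ℕ} (δ : Fin n → B → B) (b : Fin n → B) : B :=
  (Matrix.of fun i j => δ i (b j)).det

/-- The elements which are, up to higher order, combinations of leading forms of the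
determinants. -/
def leadD {B : Type u} [CommRing B] {n : ℕ} (δ : Fin n → B → B) (F : ℕ → Ideal B)
    (l : Fin n → ℕ) (m : ℕ) : Ideal B :=
  F (m + 1) ⊔ Ideal.span {y | ∃ (e : Fin n → ℕ) (b : Fin n → B) (c : B), (∀ j, b j ∈ F (e j)) ∧
    c ∈ F (m - ∑ j, (e j + l j)) ∧ y = c * dets δ b}

lemma coeff_mul' {B : Type u} [CommRing B] (f g : AddMonoidAlgebra B ℤ) (m : ℤ) :
    (f * g).coeff m = ∑ a ∈ f.coeff.support, f.coeff a * g.coeff (m - a) := by
  conv_lhs => rw [← AddMonoidAlgebra.sum_coeff_single f]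
  rw [Finsupp.sum, Finset.sum_mul, AddMonoidAlgebra.coeff_sum, Finsupp.finsetSum_apply]
  exact Finset.sum_congr rfl fun a _ => coeff_single_mul' _ _ _ _

/-- The ring of invariants of a subgroup. -/
def iv {k B : Type u} [Field k] [CommRing B] [Algebra k B] {G : Type} [Group G]
    (θ : G →* (B ≃ₐ[k] B)) (P : Subgroup G) : Subalgebra k B where
  carrier := {x | ∀ g ∈ P, θ g x = x}
  mul_mem' := fun {a b} ha hb q hq => by rw [map_mul, ha q hq, hb q hq]
  add_mem' := fun {a b} ha hb q hq => by rw [map_add, ha q hq, hb q hq]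
  algebraMap_mem' := fun c q _ => AlgEquiv.commutes _ _

lemma mem_iv {k B : Type u} [Field k] [CommRing B] [Algebra k B] {G : Type} [Group G]
    {θ : G →* (B ≃ₐ[k] B)} {P : Subgroup G} {x : B} : x ∈ iv θ P ↔ ∀ g ∈ P, θ g x = x := Iff.rfl

section act

variable {k B : Type u} [Field k] [CommRing B] [IsDomain B] [Algebra k B] {F : ℕ → Ideal B}
  (hF : IsFilt F) {G : Type} [Group G] [Finite G] (θ : G →* (B ≃ₐ[k] B))
  (hst : ∀ g d, ∀ a ∈ F d, θ g a ∈ F d)

/-- The action of the group on the extended Rees algebra. -/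
noncomputable def rho (x : G) : reesZ k hF →+* reesZ k hF :=
  mp hF ((θ x : B ≃ₐ[k] B) : B →ₐ[k] B) (hst x)

lemma coeff_rho (x : G) (f : reesZ k hF) (d : ℤ) :
    ((rho hF θ hst x f : reesZ k hF) : AddMonoidAlgebra B ℤ).coeff d =
      θ x ((f : AddMonoidAlgebra B ℤ).coeff d) := coeff_mp hF _ _ f d

lemma rho_one (f : reesZ k hF) : rho hF θ hst 1 f = f := by
  apply rees_ext
  intro d
  rw [coeff_rho, map_one]
  rfl

lemma rho_mul (x y : G) (f : reesZ k hF) :
    rho hF θ hst (x * y) f = rho hF θ hst x (rho hF θ hst y f) := by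
  apply rees_ext
  intro d
  rw [coeff_rho, coeff_rho, coeff_rho, map_mul]
  rfl

lemma rho_pow (x : G) (m : ℕ) (f : reesZ k hF) :
    rho hF θ hst (x ^ m) f = (rho hF θ hst x)^[m] f := by
  induction m generalizing f with
  | zero => rw [pow_zero, rho_one]; rfl
  | succ m ih => rw [pow_succ, rho_mul, ih, Function.iterate_succ_apply]

/-- The invariants of a subgroup in the extended Rees algebra. -/
def SS (H : Subgroup G) : Subring (reesZ k hF) where
  carrier := {f | ∀ h ∈ H, rho hF θ hst h f = f}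
  mul_mem' := fun {a b} ha hb h hh => by rw [map_mul, ha h hh, hb h hh]
  add_mem' := fun {a b} ha hb h hh => by rw [map_add, ha h hh, hb h hh]
  one_mem' := fun h _ => map_one _
  zero_mem' := fun h _ => map_zero _
  neg_mem' := fun {a} ha h hh => by rw [map_neg, ha h hh]

lemma mem_SS {H : Subgroup G} {f : reesZ k hF} :
    f ∈ SS hF θ hst H ↔ ∀ h ∈ H, rho hF θ hst h f = f := Iff.rfl

lemma mem_SS_iff {H : Subgroup G} {f : reesZ k hF} :
    f ∈ SS hF θ hst H ↔ ∀ d, (f : AddMonoidAlgebra B ℤ).coeff d ∈ iv θ H := by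
  rw [mem_SS]
  constructor
  · intro h d
    rw [mem_iv]
    intro x hx
    have h1 := congrArg (fun y : reesZ k hF => (y : AddMonoidAlgebra B ℤ).coeff d) (h x hx)
    change ((rho hF θ hst x f : reesZ k hF) : AddMonoidAlgebra B ℤ).coeff d = _ at h1
    rwa [coeff_rho] at h1
  · intro h x hx
    apply rees_ext
    intro d
    rw [coeff_rho]
    exact h d x hx

/-- The extended Rees algebra is integral over the invariants. -/
theorem exists_prime (H : Subgroup G) (q : Ideal (SS hF θ hst H)) (hq : q.IsPrime) :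
    ∃ Q : Ideal (reesZ k hF), Q.IsPrime ∧ ∀ x : SS hF θ hst H, (x : reesZ k hF) ∈ Q ↔ x ∈ q := by
  let act : MulSemiringAction H (reesZ k hF) :=
    { smul := fun h f => rho hF θ hst h f
      one_smul := fun f => rho_one hF θ hst f
      mul_smul := fun x y f => rho_mul hF θ hst x y f
      smul_zero := fun x => map_zero _
      smul_add := fun x f g => map_add _ _ _
      smul_one := fun x => map_one _
      smul_mul := fun x f g => map_mul _ _ _ }
  let alg : Algebra (SS hF θ hst H) (reesZ k hF) := (SS hF θ hst H).subtype.toAlgebra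
  have hinv : Algebra.IsInvariant (SS hF θ hst H) (reesZ k hF) H :=
    ⟨fun b hb => ⟨⟨b, fun h hh => hb ⟨h, hh⟩⟩, rfl⟩⟩
  have hint : Algebra.IsIntegral (SS hF θ hst H) (reesZ k hF) :=
    Algebra.IsInvariant.isIntegral (SS hF θ hst H) (reesZ k hF) H
  obtain ⟨Q, hQ, hQq⟩ := Ideal.exists_ideal_over_prime_of_isIntegral_of_isDomain
    (S := reesZ k hF) q (by
      intro a ha
      have h1 : a = 0 := Subtype.ext (RingHom.mem_ker.1 ha)
      rw [h1]
      exact q.zero_mem)
  refine ⟨Q, hQ, fun x => ?_⟩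
  conv_rhs => rw [← hQq]
  exact Iff.rfl

variable {p n : ℕ} {H : ℕ → Subgroup G} {g : ℕ → G} (hfl : Flag p n H g) (l : ℕ → ℕ)
  (hdiv : ∀ i < n, ∀ d, ∀ a ∈ F d, θ (g i) a - a ∈ F (d + l i))

include hfl in
lemma diff_mem {i : ℕ} (hi : i < n) {a : B} (ha : a ∈ iv θ (H i)) : θ (g i) a ∈ iv θ (H i) := by
  intro h hh
  have h1 : h * g i = g i * ((g i)⁻¹ * h * g i) := by group
  calc θ h (θ (g i) a) = θ (h * g i) a := by rw [map_mul]; rfl
    _ = θ (g i) (θ ((g i)⁻¹ * h * g i) a) := by rw [h1, map_mul]; rfl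
    _ = θ (g i) a := by rw [ha _ (hfl.conj' i hi h hh)]

include hfl in
lemma diff_mem' {i : ℕ} (hi : i < n) {a : B} (ha : a ∈ iv θ (H i)) :
    θ (g i)⁻¹ a ∈ iv θ (H i) := by
  intro h hh
  have h1 : h * (g i)⁻¹ = (g i)⁻¹ * (g i * h * (g i)⁻¹) := by group
  calc θ h (θ (g i)⁻¹ a) = θ (h * (g i)⁻¹) a := by rw [map_mul]; rfl
    _ = θ (g i)⁻¹ (θ (g i * h * (g i)⁻¹) a) := by rw [h1, map_mul]; rfl
    _ = θ (g i)⁻¹ a := by rw [ha _ (hfl.conj i hi h hh)]

include hfl in
lemma iter_id {i : ℕ} (hi : i < n) {a : B} (ha : a ∈ iv θ (H i)) : (θ (g i))^[p] a = a := by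
  have h1 : ∀ m : ℕ, (θ (g i))^[m] a = θ (g i ^ m) a := by
    intro m
    induction m with
    | zero => rw [pow_zero, map_one]; rfl
    | succ m ih => rw [Function.iterate_succ_apply', ih, pow_succ', map_mul]; rfl
  rw [h1]
  exact ha _ (hfl.pow i hi)

include hfl in
lemma mem_succ_iff {i : ℕ} (hi : i < n) (a : B) :
    a ∈ iv θ (H (i + 1)) ↔ a ∈ iv θ (H i) ∧ θ (g i) a = a := by
  constructor
  · intro h
    exact ⟨fun x hx => h x (hfl.le i hi hx), h _ (hfl.mem i hi)⟩
  · rintro ⟨h1, h2⟩ x hx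
    obtain ⟨m, h, hh, rfl⟩ := hfl.gen i hi x hx
    have h3 : ∀ m : ℕ, θ (g i ^ m) a = a := by
      intro m
      induction m with
      | zero => rw [pow_zero, map_one]; rfl
      | succ m ih =>
        calc θ (g i ^ (m + 1)) a = θ (g i) (θ (g i ^ m) a) := by rw [pow_succ', map_mul]; rfl
          _ = a := by rw [ih, h2]
    calc θ (h * g i ^ m) a = θ h (θ (g i ^ m) a) := by rw [map_mul]; rfl
      _ = a := by rw [h3, h1 h hh]

/-- The difference operator of `g i`. -/
noncomputable def thG (i : ℕ) (hi : i < n) : reesZ k hF → reesZ k hF :=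
  thR hF ((θ (g i) : B ≃ₐ[k] B) : B →ₐ[k] B) (l i) (hdiv i hi)

include hfl in
lemma thG_mem {i : ℕ} (hi : i < n) {f : reesZ k hF} (hf : f ∈ SS hF θ hst (H i)) :
    thG hF θ l hdiv i hi f ∈ SS hF θ hst (H i) := by
  rw [mem_SS_iff] at hf ⊢
  intro d
  have h1 := coeff_thR hF ((θ (g i) : B ≃ₐ[k] B) : B →ₐ[k] B) (l i) (hdiv i hi) f d
  have h2 : ((thG hF θ l hdiv i hi f : reesZ k hF) : AddMonoidAlgebra B ℤ).coeff d =
      θ (g i) ((f : AddMonoidAlgebra B ℤ).coeff (d - l i)) -
        (f : AddMonoidAlgebra B ℤ).coeff (d - l i) := h1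
  rw [h2]
  exact sub_mem (diff_mem θ hfl hi (hf _)) (hf _)

/-- Evaluation of the determinants. -/
theorem exists_det (hl : ∀ i < n, 0 < l i)
    (hind : ∀ d, 1 ≤ d → ∀ a ∈ F d, ∃ N : ℕ,
      a ^ N ∈ leadD (fun (i : Fin n) c => θ (g i) c - c) F (fun i => l i) (N * d))
    {κ : Type*} [Field κ] (π : reesZ k hF →+* κ) (hπs : π (sR k hF) = 0) (d : ℕ) (hd : 1 ≤ d)
    (a : B) (ha : a ∈ F d) (hπa : π (hmR k hF d a (by rwa [Int.toNat_natCast])) ≠ 0) :
    ∃ b : Fin n → reesZ k hF,
      (Matrix.of fun i j : Fin n => π (thG hF θ l hdiv i i.2 (b j))).det ≠ 0 := by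
  by_contra hcon
  push Not at hcon
  obtain ⟨N, hN⟩ := hind d hd a ha
  have key : ∀ z ∈ leadD (fun (i : Fin n) c => θ (g i) c - c) F (fun i => l i) (N * d),
      ∃ hz : z ∈ F ((N * d : ℕ) : ℤ).toNat, π (hmR k hF ((N * d : ℕ) : ℤ) z hz) = 0 := by
    intro z hz
    obtain ⟨z1, hz1, z2, hz2, rfl⟩ := Submodule.mem_sup.1 hz
    have h1 : ∃ hz : z1 ∈ F ((N * d : ℕ) : ℤ).toNat,
        π (hmR k hF ((N * d : ℕ) : ℤ) z1 hz) = 0 := by
      refine ⟨hF.anti _ _ (by rw [Int.toNat_natCast]; omega) hz1, ?_⟩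
      have h2 : hmR k hF ((N * d : ℕ) : ℤ) z1
          (hF.anti _ _ (by rw [Int.toNat_natCast]; omega) hz1) =
          sR k hF * hmR k hF ((N * d + 1 : ℕ) : ℤ) z1 (by rwa [Int.toNat_natCast]) := by
        apply Subtype.ext
        change AddMonoidAlgebra.single ((N * d : ℕ) : ℤ) z1 =
          AddMonoidAlgebra.single (-1 : ℤ) (1 : B) *
            AddMonoidAlgebra.single ((N * d + 1 : ℕ) : ℤ) z1
        rw [AddMonoidAlgebra.single_mul_single, one_mul]
        congr 1
        push_cast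
        ring
      rw [h2, map_mul, hπs, zero_mul]
    have h2 : ∃ hz : z2 ∈ F ((N * d : ℕ) : ℤ).toNat,
        π (hmR k hF ((N * d : ℕ) : ℤ) z2 hz) = 0 := by
      clear hz h1
      induction hz2 using Submodule.span_induction with
      | mem z hz =>
        obtain ⟨e, b, c, hb, hc, rfl⟩ := hz
        have hc' : c ∈ F (N * d - ∑ j : Fin n, (e j + l j)) := hc
        have hm : ∀ i j : Fin n, θ (g i) (b j) - b j ∈ F (e j + l i) := fun i j =>
          hdiv i i.2 _ _ (hb j)
        have hprod : ∀ (s : Finset (Fin n)) (f : Fin n → B) (u : Fin n → ℕ),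
            (∀ i, f i ∈ F (u i)) → ∏ i ∈ s, f i ∈ F (∑ i ∈ s, u i) := by
          classical
          intro s f u hfu
          induction s using Finset.induction_on with
          | empty =>
            rw [Finset.prod_empty, Finset.sum_empty, hF.zero]
            trivial
          | insert x s hx ih =>
            rw [Finset.prod_insert hx, Finset.sum_insert hx]
            exact hF.mul _ _ (Ideal.mul_mem_mul (hfu x) ih)
        have hd' : (Matrix.of fun i j : Fin n => θ (g i) (b j) - b j).det ∈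
            F (∑ j, (e j + l j)) := by
          classical
          rw [Matrix.det_apply]
          refine Ideal.sum_mem _ fun ρ _ => ?_
          have h3 : ∏ i, (Matrix.of fun i j : Fin n => θ (g i) (b j) - b j) (ρ i) i ∈
              F (∑ i, (e i + l (ρ i))) := hprod _ _ _ fun i => hm (ρ i) i
          have h4 : ∑ i, (e i + l (ρ i)) = ∑ j : Fin n, (e j + l j) := by
            rw [Finset.sum_add_distrib, Finset.sum_add_distrib,
              Equiv.sum_comp ρ fun i : Fin n => l i]
          rw [h4] at h3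
          rcases Int.units_eq_one_or (Equiv.Perm.sign ρ) with h | h
          · rwa [h, one_smul]
          · rw [h, Units.neg_smul, one_smul]
            exact Ideal.neg_mem_iff _ |>.2 h3
        have hdd : dets (fun (i : Fin n) c => θ (g i) c - c) b =
            (Matrix.of fun i j : Fin n => θ (g i) (b j) - b j).det := rfl
        have hmem : c * dets (fun (i : Fin n) c => θ (g i) c - c) b ∈
            F ((N * d : ℕ) : ℤ).toNat := by
          rw [Int.toNat_natCast, hdd]
          exact hF.anti _ _ (by omega) (hF.mul _ _ (Ideal.mul_mem_mul hc' hd'))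
        refine ⟨hmem, ?_⟩
        have hdet := det_hmR (k := k) hF e (fun i => l i) (fun i j => θ (g i) (b j) - b j) hm hd'
        have h5 : hmR k hF ((N * d : ℕ) : ℤ) _ hmem =
            hmR k hF (((N * d : ℕ) : ℤ) - ((∑ j : Fin n, (e j + l j) : ℕ) : ℤ)) c
              (hF.anti _ _ (by omega) hc') *
            hmR k hF ((∑ j : Fin n, (e j + l j) : ℕ) : ℤ)
              (Matrix.of fun i j : Fin n => θ (g i) (b j) - b j).det
                (by rwa [Int.toNat_natCast]) := by
          apply Subtype.ext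
          change AddMonoidAlgebra.single ((N * d : ℕ) : ℤ) (c * _) =
            AddMonoidAlgebra.single _ c * AddMonoidAlgebra.single _ _
          rw [AddMonoidAlgebra.single_mul_single]
          congr 1
          ring
        rw [h5, map_mul, ← hdet, RingHom.map_det]
        have h6 := hcon fun j => hmR k hF ((e j : ℕ) : ℤ) (b j) (by
          rw [Int.toNat_natCast]; exact hb j)
        have h7 : (π.mapMatrix (Matrix.of fun i j : Fin n =>
            hmR k hF ((e j + l i : ℕ) : ℤ) (θ (g i) (b j) - b j)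
              (by rw [Int.toNat_natCast]; exact hm i j))) =
            Matrix.of fun i j : Fin n => π (thG hF θ l hdiv i i.2
              (hmR k hF ((e j : ℕ) : ℤ) (b j) (by rw [Int.toNat_natCast]; exact hb j))) := by
          ext i j
          change π _ = π _
          congr 1
          exact (thR_hmR hF ((θ (g i) : B ≃ₐ[k] B) : B →ₐ[k] B) (l i) (hdiv i i.2) (e j) (b j)
            (hb j)).symm
        rw [h7, h6, mul_zero]
      | zero =>
        refine ⟨Ideal.zero_mem _, ?_⟩
        have h3 : hmR k hF ((N * d : ℕ) : ℤ) 0 (Ideal.zero_mem _) = 0 := by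
          apply Subtype.ext
          exact AddMonoidAlgebra.single_zero _
        rw [h3, map_zero]
      | add y z _ _ hy hz =>
        obtain ⟨hy1, hy2⟩ := hy
        obtain ⟨hz1, hz2⟩ := hz
        refine ⟨Ideal.add_mem _ hy1 hz1, ?_⟩
        have h3 : hmR k hF ((N * d : ℕ) : ℤ) (y + z) (Ideal.add_mem _ hy1 hz1) =
            hmR k hF ((N * d : ℕ) : ℤ) y hy1 + hmR k hF ((N * d : ℕ) : ℤ) z hz1 := by
          apply Subtype.ext
          exact AddMonoidAlgebra.single_add ..
        rw [h3, map_add, hy2, hz2, add_zero]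
      | smul r z _ hz =>
        obtain ⟨hz1, hz2⟩ := hz
        refine ⟨Ideal.mul_mem_left _ _ hz1, ?_⟩
        have h3 : hmR k hF ((N * d : ℕ) : ℤ) (r • z) (Ideal.mul_mem_left _ _ hz1) =
            hmR k hF 0 r (by
              change r ∈ F 0
              rw [hF.zero]
              trivial) * hmR k hF ((N * d : ℕ) : ℤ) z hz1 := by
          apply Subtype.ext
          change AddMonoidAlgebra.single ((N * d : ℕ) : ℤ) (r • z) =
            AddMonoidAlgebra.single 0 r * AddMonoidAlgebra.single ((N * d : ℕ) : ℤ) z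
          rw [AddMonoidAlgebra.single_mul_single, zero_add, smul_eq_mul]
        rw [h3, map_mul, hz2, mul_zero]
    obtain ⟨a1, a2⟩ := h1
    obtain ⟨b1, b2⟩ := h2
    refine ⟨Ideal.add_mem _ a1 b1, ?_⟩
    have h3 : hmR k hF ((N * d : ℕ) : ℤ) (z1 + z2) (Ideal.add_mem _ a1 b1) =
        hmR k hF ((N * d : ℕ) : ℤ) z1 a1 + hmR k hF ((N * d : ℕ) : ℤ) z2 b1 := by
      apply Subtype.ext
      exact AddMonoidAlgebra.single_add ..
    rw [h3, map_add, a2, b2, add_zero]
  obtain ⟨h1, h2⟩ := key _ hN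
  apply hπa
  have h3 : hmR k hF ((N * d : ℕ) : ℤ) (a ^ N) h1 =
      (hmR k hF d a (by rwa [Int.toNat_natCast])) ^ N := by
    apply Subtype.ext
    change AddMonoidAlgebra.single ((N * d : ℕ) : ℤ) (a ^ N) =
      (AddMonoidAlgebra.single (d : ℤ) a : AddMonoidAlgebra B ℤ) ^ N
    rw [AddMonoidAlgebra.single_pow]
    congr 1
  rw [h3, map_pow] at h2
  have hN0 : N ≠ 0 := by
    rintro rfl
    rw [pow_zero] at h2
    exact one_ne_zero h2
  exact (pow_eq_zero_iff hN0).1 h2

end act

end Pool.Agent.Helper44x.IL
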