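import Pool.Agent.Helper44x.IL.Step
import Pool.Agent.H519R3.RS.Centre

/-! Independent leading forms: quotients by groups with a normal `p`-subgroup. -/

set_option autoImplicit false
set_option linter.style.haveILetI false
set_option linter.unusedSectionVars false

open AlgebraicGeometry CategoryTheory Pool.Agent.H920R2 Pool.Agent.H519R3.RS Pool.Agent.Y177.Dg

universe u

namespace Pool.Agent.Helper44x.IL

/-- Chains of subgroups with factors of order `p`. -/
theorem flag_of {G : Type} [Group G] {p n : ℕ} (hp : p.Prime) {H : ℕ → Subgroup G}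
    {g : ℕ → G} (h0 : H 0 = ⊥) (hle : ∀ i < n, H i ≤ H (i + 1))
    (hn : ∀ i < n, ((H i).subgroupOf (H (i + 1))).Normal)
    (hidx : ∀ i < n, (H i).relIndex (H (i + 1)) = p) (hg : ∀ i < n, g i ∈ H (i + 1))
    (hg' : ∀ i < n, g i ∉ H i) : Flag p n H g := by
  have hconj : ∀ i < n, ∀ x ∈ H (i + 1), ∀ h ∈ H i, x * h * x⁻¹ ∈ H i := by
    intro i hi x hx h hh
    have h1 := (hn i hi).conj_mem ⟨h, hle i hi hh⟩ (Subgroup.mem_subgroupOf.2 hh) ⟨x, hx⟩
    exact Subgroup.mem_subgroupOf.1 h1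
  have key : ∀ i < n, g i ^ p ∈ H i ∧ ∀ x ∈ H (i + 1), ∃ m : ℕ, ∃ h ∈ H i, x = h * g i ^ m := by
    intro i hi
    have _ := hn i hi
    have _ : Fact p.Prime := ⟨hp⟩
    let K := (H i).subgroupOf (H (i + 1))
    let Q := H (i + 1) ⧸ K
    have hcard : Nat.card Q = p := hidx i hi
    let γ : H (i + 1) := ⟨g i, hg i hi⟩
    let c : Q := QuotientGroup.mk γ
    have hc : c ≠ 1 := by
      intro h
      have h1 : γ ∈ K := (QuotientGroup.eq_one_iff γ).1 h
      exact hg' i hi (Subgroup.mem_subgroupOf.1 h1)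
    constructor
    · have h1 : c ^ p = 1 := by
        rw [← hcard]
        exact pow_card_eq_one'
      have h2 : (QuotientGroup.mk (γ ^ p) : Q) = 1 := h1
      have h3 : γ ^ p ∈ K := (QuotientGroup.eq_one_iff _).1 h2
      exact Subgroup.mem_subgroupOf.1 h3
    · intro x hx
      have _ : Finite Q := Nat.finite_of_card_ne_zero (by rw [hcard]; exact hp.ne_zero)
      have h1 : (QuotientGroup.mk (⟨x, hx⟩ : H (i + 1)) : Q) ∈ Submonoid.powers c :=
        mem_powers_of_prime_card (p := p) hcard hc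
      obtain ⟨m, hm⟩ := h1
      refine ⟨m, x * (g i ^ m)⁻¹, ?_, by group⟩
      have h2 : (QuotientGroup.mk (γ ^ m) : Q) = QuotientGroup.mk (⟨x, hx⟩ : H (i + 1)) := hm
      rw [QuotientGroup.eq] at h2
      have h3 : (g i ^ m)⁻¹ * x ∈ H i := Subgroup.mem_subgroupOf.1 h2
      have h4 := hconj i hi (g i ^ m) (pow_mem (hg i hi) m) _ h3
      have h5 : g i ^ m * ((g i ^ m)⁻¹ * x) * (g i ^ m)⁻¹ = x * (g i ^ m)⁻¹ := by group
      rwa [h5] at h4
  exact
    { bot := h0
      le := hle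
      mem := hg
      notMem := hg'
      conj := fun i hi h hh => hconj i hi _ (hg i hi) h hh
      conj' := fun i hi h hh => by
        have h1 := hconj i hi _ ((H (i + 1)).inv_mem (hg i hi)) h hh
        rwa [inv_inv] at h1
      pow := fun i hi => (key i hi).1
      gen := fun i hi => (key i hi).2 }

section main

variable {k B : Type u} [Field k] [CommRing B] [IsDomain B] [Algebra k B] {F : ℕ → Ideal B}
  (hF : IsFilt F) {G : Type} [Group G] [Finite G] (θ : G →* (B ≃ₐ[k] B))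
  (hst : ∀ g d, ∀ a ∈ F d, θ g a ∈ F d) {p n : ℕ} {H : ℕ → Subgroup G} {g : ℕ → G}
  (hfl : Flag p n H g) (l : ℕ → ℕ) (hdiv : ∀ i < n, ∀ d, ∀ a ∈ F d, θ (g i) a - a ∈ F (d + l i))

include hF hst hfl hdiv in
/-- The rings of invariants of the subgroups of the chain. -/
theorem good_iv (hp : p.Prime) (hpk : (p : k) = 0) (hl : ∀ i < n, 0 < l i)
    (hind : ∀ d, 1 ≤ d → ∀ a ∈ F d, ∃ N : ℕ,
      a ^ N ∈ leadD (fun (i : Fin n) c => θ (g i) c - c) F (fun i => l i) (N * d))
    (hfix : ∀ i < n, ∀ x ∈ H (i + 1), x ≠ 1 → ∀ P : Ideal B, P.IsPrime →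
      (∀ a, θ x a - a ∈ P) → F 1 ≤ P)
    (hG : Good k hF) (hne : F 1 ≠ ⊥) (i : ℕ) (hi : i ≤ n) :
    Good k (isFilt_restr hF (iv θ (H i))) ∧ restr F (iv θ (H i)) 1 ≠ ⊥ := by
  induction i with
  | zero =>
    refine good_top hF hG hne ?_
    rw [eq_top_iff]
    intro x _ h hh
    rw [hfl.bot, Subgroup.mem_bot] at hh
    rw [hh, map_one]
    rfl
  | succ i ih =>
    obtain ⟨h1, h2⟩ := ih (by omega)
    exact good_sstep hp hpk hF (sstep hF θ hst hfl l hdiv hp hpk hl hind hfix (by omega)) h1 h2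

end main

end Pool.Agent.Helper44x.IL
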