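import Pool.Agent.Helper44x.IL.Span
import Pool.Agent.H519R3.RS.Tower

/-! The action on the extended Rees algebra. -/

set_option autoImplicit false
set_option linter.style.haveILetI false
set_option linter.unusedSectionVars false

open Pool.Agent.H519R3.RS

universe u

namespace Pool.Agent.Helper44x.IL

lemma coeff_single_mul' {B : Type u} [CommRing B] (d e : ℤ) (b : B) (f : AddMonoidAlgebra B ℤ) :
    (AddMonoidAlgebra.single d b * f).coeff e = b * f.coeff (e - d) :=
  AddMonoidAlgebra.coeff_single_mul_eq_mul_coeff _ (by intro m' _; omega)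

section rees

variable {k B : Type u} [Field k] [CommRing B] [IsDomain B] [Algebra k B] {F : ℕ → Ideal B}
  (hF : IsFilt F)

/-- Homogeneous elements. -/
noncomputable def hmR (k : Type u) [Field k] [Algebra k B] (hF : IsFilt F) (d : ℤ) (b : B)
    (hb : b ∈ F d.toNat) : reesZ k hF :=
  ⟨AddMonoidAlgebra.single d b, by
    classical
    intro e
    rw [AddMonoidAlgebra.coeff_single, Finsupp.single_apply]
    split_ifs with h
    · subst h
      exact hb
    · exact Ideal.zero_mem _⟩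

lemma coe_hmR (d : ℤ) (b : B) (hb : b ∈ F d.toNat) :
    ((hmR k hF d b hb : reesZ k hF) : AddMonoidAlgebra B ℤ) = AddMonoidAlgebra.single d b := rfl

include hF in
lemma toNat_mul {d e : ℤ} {a b : B} (ha : a ∈ F d.toNat) (hb : b ∈ F e.toNat) :
    a * b ∈ F (d + e).toNat :=
  hF.anti _ _ (by omega) (hF.mul _ _ (Ideal.mul_mem_mul ha hb))

lemma hmR_mul (d e : ℤ) (a b : B) (ha : a ∈ F d.toNat) (hb : b ∈ F e.toNat) :
    hmR k hF d a ha * hmR k hF e b hb = hmR k hF (d + e) (a * b) (toNat_mul hF ha hb) := by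
  apply Subtype.ext
  exact AddMonoidAlgebra.single_mul_single ..

/-- The variable of degree `-1`. -/
noncomputable def sR (k : Type u) [Field k] [Algebra k B] (hF : IsFilt F) : reesZ k hF :=
  hmR k hF (-1) 1 (by
    change (1 : B) ∈ F 0
    rw [hF.zero]
    trivial)

lemma coe_sR_pow (l : ℕ) : (((sR k hF) ^ l : reesZ k hF) : AddMonoidAlgebra B ℤ) =
    AddMonoidAlgebra.single (-(l : ℤ)) 1 := by
  induction l with
  | zero => rfl
  | succ l ih =>
    rw [pow_succ]
    change (((sR k hF) ^ l : reesZ k hF) : AddMonoidAlgebra B ℤ) * AddMonoidAlgebra.single (-1) 1 = _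
    rw [ih, AddMonoidAlgebra.single_mul_single, one_mul]
    congr 1
    push_cast
    ring

lemma sR_ne_zero : sR k hF ≠ 0 := by
  intro h
  have h1 := congrArg (fun f : reesZ k hF => (f : AddMonoidAlgebra B ℤ).coeff (-1)) h
  change (AddMonoidAlgebra.single (-1 : ℤ) (1 : B)).coeff (-1) = 0 at h1
  rw [AddMonoidAlgebra.coeff_single, Finsupp.single_eq_same] at h1
  exact one_ne_zero h1

/-- The action of an endomorphism on the extended Rees algebra. -/
noncomputable def mp (σ : B →ₐ[k] B) (hσ : ∀ d, ∀ a ∈ F d, σ a ∈ F d) :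
    reesZ k hF →+* reesZ k hF :=
  (((AddMonoidAlgebra.mapAlgHom (R := k) ℤ σ).comp (reesZ k hF).val).codRestrict (reesZ k hF)
    fun f d => by
      change (AddMonoidAlgebra.mapAlgHom (R := k) ℤ σ (f : AddMonoidAlgebra B ℤ)).coeff d ∈ _
      rw [AddMonoidAlgebra.coeff_mapAlgHom]
      exact hσ _ _ (f.2 d)).toRingHom

variable (σ : B →ₐ[k] B) (hσ : ∀ d, ∀ a ∈ F d, σ a ∈ F d)

lemma coeff_mp (f : reesZ k hF) (d : ℤ) :
    ((mp hF σ hσ f : reesZ k hF) : AddMonoidAlgebra B ℤ).coeff d =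
      σ ((f : AddMonoidAlgebra B ℤ).coeff d) := by
  change (AddMonoidAlgebra.mapAlgHom (R := k) ℤ σ (f : AddMonoidAlgebra B ℤ)).coeff d = _
  rw [AddMonoidAlgebra.coeff_mapAlgHom]

lemma rees_ext {f g : reesZ k hF} (h : ∀ d, (f : AddMonoidAlgebra B ℤ).coeff d =
    (g : AddMonoidAlgebra B ℤ).coeff d) : f = g := by
  apply Subtype.ext
  apply AddMonoidAlgebra.coeff_injective
  ext d
  exact h d

/-- The difference operator. -/
noncomputable def thR (l : ℕ) (hσl : ∀ d, ∀ a ∈ F d, σ a - a ∈ F (d + l)) (f : reesZ k hF) :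
    reesZ k hF :=
  ⟨AddMonoidAlgebra.single (l : ℤ) 1 *
    (AddMonoidAlgebra.mapAlgHom (R := k) ℤ σ (f : AddMonoidAlgebra B ℤ) -
      (f : AddMonoidAlgebra B ℤ)), fun d => by
      have h1 : (AddMonoidAlgebra.mapAlgHom (R := k) ℤ σ (f : AddMonoidAlgebra B ℤ) -
          (f : AddMonoidAlgebra B ℤ)).coeff (d - l) =
          σ ((f : AddMonoidAlgebra B ℤ).coeff (d - l)) -
            (f : AddMonoidAlgebra B ℤ).coeff (d - l) := by
        have h2 : (AddMonoidAlgebra.mapAlgHom (R := k) ℤ σ (f : AddMonoidAlgebra B ℤ)).coeff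
            (d - l) = σ ((f : AddMonoidAlgebra B ℤ).coeff (d - l)) := by
          rw [AddMonoidAlgebra.coeff_mapAlgHom]
        rw [← h2]
        rfl
      rw [coeff_single_mul', one_mul, h1]
      exact hF.anti _ _ (by omega) (hσl _ _ (f.2 (d - l)))⟩

lemma coeff_thR (l : ℕ) (hσl : ∀ d, ∀ a ∈ F d, σ a - a ∈ F (d + l)) (f : reesZ k hF) (d : ℤ) :
    ((thR hF σ l hσl f : reesZ k hF) : AddMonoidAlgebra B ℤ).coeff d =
      σ ((f : AddMonoidAlgebra B ℤ).coeff (d - l)) - (f : AddMonoidAlgebra B ℤ).coeff (d - l) := by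
  change (AddMonoidAlgebra.single (l : ℤ) 1 *
    (AddMonoidAlgebra.mapAlgHom (R := k) ℤ σ (f : AddMonoidAlgebra B ℤ) -
      (f : AddMonoidAlgebra B ℤ))).coeff d = _
  rw [coeff_single_mul', one_mul]
  have h2 : (AddMonoidAlgebra.mapAlgHom (R := k) ℤ σ (f : AddMonoidAlgebra B ℤ)).coeff
      (d - l) = σ ((f : AddMonoidAlgebra B ℤ).coeff (d - l)) := by
    rw [AddMonoidAlgebra.coeff_mapAlgHom]
  rw [← h2]
  rfl

lemma mp_sub (l : ℕ) (hσl : ∀ d, ∀ a ∈ F d, σ a - a ∈ F (d + l)) (f : reesZ k hF) :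
    mp hF σ hσ f - f = sR k hF ^ l * thR hF σ l hσl f := by
  apply rees_ext
  intro d
  have h1 : ((mp hF σ hσ f - f : reesZ k hF) : AddMonoidAlgebra B ℤ).coeff d =
      ((mp hF σ hσ f : reesZ k hF) : AddMonoidAlgebra B ℤ).coeff d -
        (f : AddMonoidAlgebra B ℤ).coeff d := rfl
  have h2 : ((sR k hF ^ l * thR hF σ l hσl f : reesZ k hF) : AddMonoidAlgebra B ℤ) =
      AddMonoidAlgebra.single (-(l : ℤ)) 1 *
        ((thR hF σ l hσl f : reesZ k hF) : AddMonoidAlgebra B ℤ) := by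
    rw [← coe_sR_pow (k := k) hF l]
    rfl
  rw [h1, h2, coeff_single_mul', one_mul, coeff_mp, coeff_thR]
  congr 2 <;> congr 1 <;> ring

lemma mp_sR : mp hF σ hσ (sR k hF) = sR k hF := by
  apply rees_ext
  intro d
  rw [coeff_mp]
  change σ ((AddMonoidAlgebra.single (-1 : ℤ) (1 : B)).coeff d) =
    (AddMonoidAlgebra.single (-1 : ℤ) (1 : B)).coeff d
  classical
  rw [AddMonoidAlgebra.coeff_single, Finsupp.single_apply]
  split_ifs
  · exact map_one σ
  · exact map_zero σ

lemma thR_hmR (l : ℕ) (hσl : ∀ d, ∀ a ∈ F d, σ a - a ∈ F (d + l)) (d : ℕ) (b : B)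
    (hb : b ∈ F d) : thR hF σ l hσl (hmR k hF d b (by rwa [Int.toNat_natCast])) =
      hmR k hF ((d + l : ℕ) : ℤ) (σ b - b) (by rw [Int.toNat_natCast]; exact hσl d b hb) := by
  classical
  apply rees_ext
  intro e
  rw [coeff_thR]
  change σ ((AddMonoidAlgebra.single (d : ℤ) b).coeff (e - l)) -
    (AddMonoidAlgebra.single (d : ℤ) b).coeff (e - l) =
    (AddMonoidAlgebra.single ((d + l : ℕ) : ℤ) (σ b - b)).coeff e
  rw [AddMonoidAlgebra.coeff_single, AddMonoidAlgebra.coeff_single, Finsupp.single_apply,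
    Finsupp.single_apply]
  by_cases h : (d : ℤ) = e - l
  · rw [if_pos h, if_pos (by push_cast; omega)]
  · rw [if_neg h, if_neg (by push_cast; omega), map_zero, sub_zero]

/-- The determinant of a homogeneous matrix. -/
lemma det_hmR {n : ℕ} (e l : Fin n → ℕ) (m : Fin n → Fin n → B)
    (hm : ∀ i j, m i j ∈ F (e j + l i)) (hd : (Matrix.of m).det ∈ F (∑ j, (e j + l j))) :
    (Matrix.of fun i j => hmR k hF ((e j + l i : ℕ) : ℤ) (m i j)
      (by rw [Int.toNat_natCast]; exact hm i j)).det =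
      hmR k hF ((∑ j, (e j + l j) : ℕ) : ℤ) (Matrix.of m).det
        (by rw [Int.toNat_natCast]; exact hd) := by
  classical
  apply Subtype.ext
  have h1 : ∀ M : Matrix (Fin n) (Fin n) (reesZ k hF),
      ((M.det : reesZ k hF) : AddMonoidAlgebra B ℤ) =
        (Matrix.of fun i j => ((M i j : reesZ k hF) : AddMonoidAlgebra B ℤ)).det := by
    intro M
    exact RingHom.map_det ((reesZ k hF).val : reesZ k hF →+* AddMonoidAlgebra B ℤ) M
  rw [h1, coe_hmR, Matrix.det_apply, Matrix.det_apply]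
  have h2 : ∀ ρ : Equiv.Perm (Fin n), (∏ i, (Matrix.of fun i j : Fin n =>
      (((Matrix.of fun i j => hmR k hF ((e j + l i : ℕ) : ℤ) (m i j)
      (by rw [Int.toNat_natCast]; exact hm i j)) i j : reesZ k hF) :
        AddMonoidAlgebra B ℤ)) (ρ i) i) =
      AddMonoidAlgebra.single ((∑ j, (e j + l j) : ℕ) : ℤ) (∏ i, (Matrix.of m) (ρ i) i) := by
    intro ρ
    have h3 : ∀ s : Finset (Fin n), ∏ i ∈ s, (AddMonoidAlgebra.single ((e i + l (ρ i) : ℕ) : ℤ)
        (m (ρ i) i) : AddMonoidAlgebra B ℤ) =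
        AddMonoidAlgebra.single ((∑ i ∈ s, (e i + l (ρ i)) : ℕ) : ℤ) (∏ i ∈ s, m (ρ i) i) := by
      intro s
      induction s using Finset.induction_on with
      | empty => rfl
      | insert a s ha ih =>
        rw [Finset.prod_insert ha, ih, AddMonoidAlgebra.single_mul_single, Finset.sum_insert ha,
          Finset.prod_insert ha]
        congr 1
    have h4 := h3 Finset.univ
    have h5 : ∑ i, (e i + l (ρ i)) = ∑ j, (e j + l j) := by
      rw [Finset.sum_add_distrib, Finset.sum_add_distrib, Equiv.sum_comp ρ l]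
    rw [h5] at h4
    exact h4
  rw [Finset.sum_congr rfl fun ρ _ => by rw [h2 ρ]]
  have h6 : ∀ ρ : Equiv.Perm (Fin n), Equiv.Perm.sign ρ •
      (AddMonoidAlgebra.single ((∑ j, (e j + l j) : ℕ) : ℤ) (∏ i, (Matrix.of m) (ρ i) i) :
        AddMonoidAlgebra B ℤ) =
      AddMonoidAlgebra.single ((∑ j, (e j + l j) : ℕ) : ℤ)
        (Equiv.Perm.sign ρ • ∏ i, (Matrix.of m) (ρ i) i) := by
    intro ρ
    rcases Int.units_eq_one_or (Equiv.Perm.sign ρ) with h | h
    · rw [h, one_smul, one_smul]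
    · rw [h, Units.neg_smul, one_smul, Units.neg_smul, one_smul]
      apply AddMonoidAlgebra.coeff_injective
      ext d
      change -((AddMonoidAlgebra.single _ _ : AddMonoidAlgebra B ℤ).coeff d) =
        (AddMonoidAlgebra.single _ _ : AddMonoidAlgebra B ℤ).coeff d
      rw [AddMonoidAlgebra.coeff_single, AddMonoidAlgebra.coeff_single, Finsupp.single_apply,
        Finsupp.single_apply]
      split_ifs
      · rfl
      · exact neg_zero
  rw [Finset.sum_congr rfl fun ρ _ => h6 ρ]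
  have h7 : ∀ (s : Finset (Equiv.Perm (Fin n))) (c : Equiv.Perm (Fin n) → B),
      ∑ ρ ∈ s, (AddMonoidAlgebra.single ((∑ j, (e j + l j) : ℕ) : ℤ) (c ρ) :
        AddMonoidAlgebra B ℤ) =
      AddMonoidAlgebra.single ((∑ j, (e j + l j) : ℕ) : ℤ) (∑ ρ ∈ s, c ρ) := by
    intro s c
    induction s using Finset.induction_on with
    | empty => rw [Finset.sum_empty, Finset.sum_empty, AddMonoidAlgebra.single_zero]
    | insert a s ha ih =>
      rw [Finset.sum_insert ha, Finset.sum_insert ha, ih, AddMonoidAlgebra.single_add]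
  exact h7 _ _

end rees

end Pool.Agent.Helper44x.IL
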