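import Pool.Agent.Helper44x.IL.Interp

/-! Independent leading forms and towers of invariants. -/

set_option autoImplicit false
set_option linter.style.haveILetI false

namespace Pool.Agent.Helper44x.IL

section tower

variable {R κ : Type*} [CommRing R] [IsDomain R] [Field κ] {p : ℕ} (hp : p.Prime)
  (hpR : (p : R) = 0) (π : R →+* κ) (s : R) (hs0 : s ≠ 0) (hπs : π s = 0) (n : ℕ)
  (S : ℕ → Subring R) (τ : ℕ → R →+* R) (l : ℕ → ℕ) (hl : ∀ i < n, 0 < l i) (θ : ℕ → R → R)
  (hτs : ∀ i < n, τ i s = s) (hθ : ∀ i < n, ∀ f, τ i f - f = s ^ l i * θ i f)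
  (hS0 : S 0 = ⊤) (hS : ∀ i < n, ∀ f, f ∈ S (i + 1) ↔ f ∈ S i ∧ τ i f = f)
  (hτS : ∀ i < n, ∀ f ∈ S i, τ i f ∈ S i) (hθS : ∀ i < n, ∀ f ∈ S i, θ i f ∈ S i)
  (hτp : ∀ i < n, ∀ f ∈ S i, (τ i)^[p] f = f) (hsS : ∀ i ≤ n, s ∈ S i)
  (b : Fin n → R) (hdet : (Matrix.of fun i j : Fin n => π (θ i (b j))).det ≠ 0)

include hθ hs0 hπs hl hτs in
theorem theta_add {i : ℕ} (hi : i < n) (f g : R) : θ i (f + g) = θ i f + θ i g := by
  apply mul_left_cancel₀ (pow_ne_zero (l i) hs0)
  rw [← hθ i hi, mul_add, ← hθ i hi, ← hθ i hi, map_add]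
  ring

include hθ hs0 in
theorem theta_mul {i : ℕ} (hi : i < n) (f g : R) :
    θ i (f * g) = θ i f * g + f * θ i g + s ^ l i * (θ i f * θ i g) := by
  apply mul_left_cancel₀ (pow_ne_zero (l i) hs0)
  rw [← hθ i hi, map_mul]
  have h1 : τ i f = f + s ^ l i * θ i f := by rw [← hθ i hi]; ring
  have h2 : τ i g = g + s ^ l i * θ i g := by rw [← hθ i hi]; ring
  rw [h1, h2]
  ring

include hθ hs0 hπs hl in
theorem v_mul {i : ℕ} (hi : i < n) (f g : R) :
    π (θ i (f * g)) = π (θ i f) * π g + π f * π (θ i g) := by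
  rw [theta_mul s hs0 n τ l θ hθ hi, map_add, map_add, map_mul, map_mul, map_mul, map_pow, hπs,
    zero_pow (hl i hi).ne', zero_mul, add_zero]

include hθ hs0 in
theorem theta_fixed {i : ℕ} (hi : i < n) {f : R} (hf : τ i f = f) : θ i f = 0 := by
  have h1 := hθ i hi f
  rw [hf, sub_self] at h1
  exact (mul_eq_zero.1 h1.symm).resolve_left (pow_ne_zero _ hs0)

include hp hpR hs0 hπs hl hτs hθ hS0 hS hτS hθS hτp hsS hdet in
theorem claim (i : ℕ) (hi : i ≤ n) (c : Fin n → κ)
    (hc : ∀ f ∈ S i, ∑ j, c j * π (θ j f) = 0) : ∀ j : Fin n, i ≤ j → c j = 0 := by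
  classical
  induction i generalizing c with
  | zero =>
    intro j _
    have h1 : Matrix.vecMul c (Matrix.of fun i j : Fin n => π (θ i (b j))) = 0 := by
      funext m
      exact hc (b m) (by rw [hS0]; trivial)
    have h2 := Matrix.eq_zero_of_vecMul_eq_zero hdet h1
    rw [h2]
    rfl
  | succ i ih =>
    have hi' : i < n := hi
    obtain ⟨x, hxS, hx⟩ : ∃ x ∈ S i, π (θ i x) ≠ 0 := by
      by_contra hcon
      push Not at hcon
      have h1 := ih hi'.le (Pi.single ⟨i, hi'⟩ 1) (by
        intro f hf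
        rw [Finset.sum_eq_single ⟨i, hi'⟩]
        · rw [Pi.single_eq_same, one_mul]
          exact hcon f hf
        · intro j _ hj
          rw [Pi.single_eq_of_ne hj, zero_mul]
        · intro h
          exact absurd (Finset.mem_univ _) h) ⟨i, hi'⟩ le_rfl
      rw [Pi.single_eq_same] at h1
      exact one_ne_zero h1
    set lam : κ := (∑ j, c j * π (θ j x)) / π (θ i x) with hlam
    let c' : Fin n → κ := fun j => c j - if j = ⟨i, hi'⟩ then lam else 0
    have hc' : ∀ f, ∑ j, c' j * π (θ j f) = ∑ j, c j * π (θ j f) - lam * π (θ i f) := by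
      intro f
      have h1 : ∀ j : Fin n, c' j * π (θ j f) = c j * π (θ j f) -
          (if j = ⟨i, hi'⟩ then lam * π (θ j f) else 0) := by
        intro j
        change (c j - if j = ⟨i, hi'⟩ then lam else 0) * π (θ j f) = _
        split_ifs <;> ring
      rw [Finset.sum_congr rfl fun j _ => h1 j, Finset.sum_sub_distrib, Finset.sum_ite_eq' ]
      simp
    let τS : S i →+* S i := ((τ i).comp (S i).subtype).codRestrict (S i) fun f => hτS i hi' f f.2
    have hτSi : ∀ (m : ℕ) (f : S i), ((τS^[m] f : S i) : R) = (τ i)^[m] f := by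
      intro m
      induction m with
      | zero => intro f; rfl
      | succ m ihm => intro f; rw [Function.iterate_succ_apply', Function.iterate_succ_apply', ← ihm]; rfl
    have key : ∀ f ∈ S i, ∑ j, c' j * π (θ j f) = 0 := by
      intro f hf
      have hpS : ((p : ℕ) : S i) = 0 := by
        apply Subtype.ext
        rw [Subring.coe_natCast, hpR]
        rfl
      refine der_zero (S := S i) (κ := κ) hp hpS τS (fun f => ?_) (⟨s, hsS i hi'.le⟩ ^ l i) ?_ ?_
        (fun f => ⟨θ i f, hθS i hi' f f.2⟩) (fun f => ?_) (π.comp (S i).subtype) ?_ ⟨x, hxS⟩ hx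
        (fun f => ∑ j, c' j * π (θ j f)) ?_ ?_ ?_ ?_ ⟨f, hf⟩
      · apply Subtype.ext
        rw [hτSi, hτp i hi' f f.2]
      · apply Subtype.ext
        change τ i (((⟨s, hsS i hi'.le⟩ : S i) ^ l i : S i) : R) = _
        rw [Subring.coe_pow, map_pow, hτs i hi']
      · exact pow_ne_zero _ fun h => hs0 (congrArg Subtype.val h)
      · apply Subtype.ext
        change τ i (f : R) - f = (((⟨s, hsS i hi'.le⟩ : S i) ^ l i : S i) : R) * θ i f
        rw [Subring.coe_pow]
        exact hθ i hi' f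
      · rw [map_pow]
        change π s ^ l i = 0
        rw [hπs, zero_pow (hl i hi').ne']
      · intro f g
        rw [← Finset.sum_add_distrib]
        refine Finset.sum_congr rfl fun j _ => ?_
        rw [← mul_add, ← map_add]
        congr 2
        exact theta_add π s hs0 hπs n τ l hl θ hτs hθ j.2 f g
      · intro f g
        rw [Finset.sum_mul, Finset.mul_sum, ← Finset.sum_add_distrib]
        refine Finset.sum_congr rfl fun j _ => ?_
        change c' j * π (θ j ((f : R) * g)) = _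
        rw [v_mul π s hs0 hπs n τ l hl θ hθ j.2]
        change _ = c' j * π (θ j f) * π g + π f * (c' j * π (θ j g))
        ring
      · intro f hf
        have hf' : τ i (f : R) = f := congrArg Subtype.val hf
        change ∑ j, c' j * π (θ j f) = 0
        rw [hc', theta_fixed s hs0 n τ l θ hθ hi' hf', map_zero, mul_zero, sub_zero]
        exact hc f ((hS i hi' f).2 ⟨f.2, hf'⟩)
      · change ∑ j, c' j * π (θ j x) = 0
        rw [hc', hlam, div_mul_cancel₀ _ hx, sub_self]
    intro j hj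
    have h2 := ih hi'.le c' key j (by omega)
    have h3 : j ≠ ⟨i, hi'⟩ := by
      rintro rfl
      simp at hj
    change (c j - if j = ⟨i, hi'⟩ then lam else 0) = 0 at h2
    rw [if_neg h3, sub_zero] at h2
    exact h2

include hp hpR hs0 hπs hl hτs hθ hS0 hS hτS hθS hτp hsS hdet in
theorem exists_ne (i : ℕ) (hi : i < n) : ∃ x ∈ S i, π (θ i x) ≠ 0 := by
  classical
  by_contra hcon
  push Not at hcon
  have h1 := claim hp hpR π s hs0 hπs n S τ l hl θ hτs hθ hS0 hS hτS hθS hτp hsS b hdet i hi.le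
    (Pi.single ⟨i, hi⟩ 1) (by
      intro f hf
      rw [Finset.sum_eq_single ⟨i, hi⟩]
      · rw [Pi.single_eq_same, one_mul]
        exact hcon f hf
      · intro j _ hj
        rw [Pi.single_eq_of_ne hj, zero_mul]
      · intro h
        exact absurd (Finset.mem_univ _) h) ⟨i, hi⟩ le_rfl
  rw [Pi.single_eq_same] at h1
  exact one_ne_zero h1

end tower

end Pool.Agent.Helper44x.IL
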