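import Pool.Agent.Helper44x.IL.Lead

/-! Independent leading forms: the steps of the tower. -/

set_option autoImplicit false
set_option linter.style.haveILetI false
set_option linter.unusedSectionVars false

open Pool.Agent.H519R3.RS Pool.Agent.Y177.Dg

universe u

namespace Pool.Agent.Helper44x.IL

lemma exists_residue {R : Type u} [CommRing R] (Q : Ideal R) (hQ : Q.IsPrime) :
    ∃ (κ : Type u) (_ : Field κ) (π : R →+* κ), ∀ f, π f = 0 ↔ f ∈ Q := by
  refine ⟨FractionRing (R ⧸ Q), inferInstance,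
    (algebraMap (R ⧸ Q) (FractionRing (R ⧸ Q))).comp (Ideal.Quotient.mk Q), fun f => ?_⟩
  rw [RingHom.comp_apply, map_eq_zero_iff _ (IsFractionRing.injective (R ⧸ Q) _),
    Ideal.Quotient.eq_zero_iff_mem]

section act

variable {k B : Type u} [Field k] [CommRing B] [IsDomain B] [Algebra k B] {F : ℕ → Ideal B}
  (hF : IsFilt F) {G : Type} [Group G] [Finite G] (θ : G →* (B ≃ₐ[k] B))
  (hst : ∀ g d, ∀ a ∈ F d, θ g a ∈ F d) {p n : ℕ} {H : ℕ → Subgroup G} {g : ℕ → G}
  (hfl : Flag p n H g) (l : ℕ → ℕ) (hdiv : ∀ i < n, ∀ d, ∀ a ∈ F d, θ (g i) a - a ∈ F (d + l i))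

/-- The action of `g i` on the invariants of `H i`. -/
noncomputable def actG (i : ℕ) (hi : i < n) : iv θ (H i) ≃ₐ[k] iv θ (H i) :=
  AlgEquiv.ofAlgHom
    ((((θ (g i) : B ≃ₐ[k] B) : B →ₐ[k] B).comp (iv θ (H i)).val).codRestrict (iv θ (H i))
      fun x => diff_mem θ hfl hi x.2)
    ((((θ (g i)⁻¹ : B ≃ₐ[k] B) : B →ₐ[k] B).comp (iv θ (H i)).val).codRestrict (iv θ (H i))
      fun x => diff_mem' θ hfl hi x.2)
    (AlgHom.ext fun x => by
      apply Subtype.ext
      change θ (g i) (θ (g i)⁻¹ (x : B)) = x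
      rw [← AlgEquiv.mul_apply, ← map_mul, mul_inv_cancel, map_one]
      rfl)
    (AlgHom.ext fun x => by
      apply Subtype.ext
      change θ (g i)⁻¹ (θ (g i) (x : B)) = x
      rw [← AlgEquiv.mul_apply, ← map_mul, inv_mul_cancel, map_one]
      rfl)

lemma coe_actG (i : ℕ) (hi : i < n) (x : iv θ (H i)) :
    ((actG θ hfl i hi x : iv θ (H i)) : B) = θ (g i) x := rfl

/-- The coefficients of an invariant element. -/
def cf (i : ℕ) (m : ℤ) (f : SS hF θ hst (H i)) : iv θ (H i) :=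
  ⟨((f : reesZ k hF) : AddMonoidAlgebra B ℤ).coeff m, (mem_SS_iff hF θ hst).1 f.2 m⟩

lemma cf_add (i : ℕ) (m : ℤ) (f f' : SS hF θ hst (H i)) :
    cf hF θ hst i m (f + f') = cf hF θ hst i m f + cf hF θ hst i m f' := rfl

/-- The ideal of the variable of degree `-1` and the differences. -/
noncomputable def JJ (i : ℕ) (hi : i < n) : Ideal (SS hF θ hst (H i)) :=
  Ideal.span ({x | (x : reesZ k hF) = sR k hF} ∪
    {x | ∃ y : SS hF θ hst (H i), (x : reesZ k hF) = thG hF θ l hdiv i hi y})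

lemma cf_mul_mem {i : ℕ} (hi : i < n) (r x : SS hF θ hst (H i))
    (hx : x ∈ {x : SS hF θ hst (H i) | (x : reesZ k hF) = sR k hF} ∪
      {x : SS hF θ hst (H i) | ∃ y : SS hF θ hst (H i),
        (x : reesZ k hF) = thG hF θ l hdiv i hi y}) (m : ℕ) :
    cf hF θ hst i m (r * x) ∈ leadI (fun c => actG θ hfl i hi c - c)
      (restr F (iv θ (H i))) (l i) m := by
  classical
  have hc : ((cf hF θ hst i m (r * x) : iv θ (H i)) : B) =
      ∑ a ∈ ((r : reesZ k hF) : AddMonoidAlgebra B ℤ).coeff.support,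
        ((r : reesZ k hF) : AddMonoidAlgebra B ℤ).coeff a *
          ((x : reesZ k hF) : AddMonoidAlgebra B ℤ).coeff (m - a) := coeff_mul' _ _ _
  have hc' : cf hF θ hst i m (r * x) =
      ∑ a ∈ ((r : reesZ k hF) : AddMonoidAlgebra B ℤ).coeff.support,
        cf hF θ hst i a r * cf hF θ hst i (m - a) x := by
    apply Subtype.ext
    rw [hc, AddSubmonoidClass.coe_finsetSum]
    rfl
  rw [hc']
  refine Ideal.sum_mem _ fun a _ => ?_
  have hr : ((cf hF θ hst i a r : iv θ (H i)) : B) ∈ F a.toNat := (r : reesZ k hF).2 a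
  rcases hx with hx | ⟨y, hy⟩
  · have hx' : (x : reesZ k hF) = sR k hF := hx
    have h1 : ((cf hF θ hst i (m - a) x : iv θ (H i)) : B) =
        (AddMonoidAlgebra.single (-1 : ℤ) (1 : B)).coeff (m - a) := by
      change ((x : reesZ k hF) : AddMonoidAlgebra B ℤ).coeff (m - a) = _
      rw [hx']
      rfl
    rw [AddMonoidAlgebra.coeff_single, Finsupp.single_apply] at h1
    refine Ideal.mem_sup_left ?_
    rw [mem_restr]
    change ((cf hF θ hst i a r : iv θ (H i)) : B) * (cf hF θ hst i (m - a) x : iv θ (H i)) ∈ _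
    rw [h1]
    split_ifs with h
    · rw [mul_one]
      exact hF.anti _ _ (by omega) hr
    · rw [mul_zero]
      exact Ideal.zero_mem _
  · refine Ideal.mem_sup_right (Ideal.subset_span ?_)
    refine ⟨((m : ℤ) - a - l i).toNat, cf hF θ hst i ((m : ℤ) - a - l i) y, ?_,
      cf hF θ hst i a r, ?_, ?_⟩
    · rw [mem_restr]
      exact (y : reesZ k hF).2 _
    · rw [mem_restr]
      exact hF.anti _ _ (by omega) hr
    · apply Subtype.ext
      change _ * ((x : reesZ k hF) : AddMonoidAlgebra B ℤ).coeff (m - a) = _ *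
        (θ (g i) (((y : reesZ k hF) : AddMonoidAlgebra B ℤ).coeff ((m : ℤ) - a - l i)) -
          ((y : reesZ k hF) : AddMonoidAlgebra B ℤ).coeff ((m : ℤ) - a - l i))
      congr 1
      rw [hy]
      exact coeff_thR hF ((θ (g i) : B ≃ₐ[k] B) : B →ₐ[k] B) (l i) (hdiv i hi) y (m - a)

lemma cf_mem {i : ℕ} (hi : i < n) (f : SS hF θ hst (H i))
    (hf : f ∈ JJ hF θ hst l hdiv i hi) (m : ℕ) :
    cf hF θ hst i m f ∈ leadI (fun c => actG θ hfl i hi c - c)
      (restr F (iv θ (H i))) (l i) m := by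
  unfold JJ Ideal.span at hf
  rw [Submodule.mem_span_set'] at hf
  obtain ⟨N, r, x, rfl⟩ := hf
  have h1 : cf hF θ hst i m (∑ j, r j • (x j : SS hF θ hst (H i))) =
      ∑ j, cf hF θ hst i m (r j * (x j : SS hF θ hst (H i))) := by
    classical
    have h2 : ∀ s : Finset (Fin N), cf hF θ hst i m (∑ j ∈ s, r j • (x j : SS hF θ hst (H i))) =
        ∑ j ∈ s, cf hF θ hst i m (r j * (x j : SS hF θ hst (H i))) := by
      intro s
      induction s using Finset.induction_on with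
      | empty => rfl
      | insert a s ha ih => rw [Finset.sum_insert ha, Finset.sum_insert ha, cf_add, ih]; rfl
    exact h2 _
  rw [h1]
  exact Ideal.sum_mem _ fun j _ => cf_mul_mem hF θ hst hfl l hdiv hi (r j) (x j) (x j).2 m

include hF hst hdiv in
/-- The leading forms on the rings of invariants. -/
theorem lead_step (hp : p.Prime) (hpk : (p : k) = 0) (hl : ∀ i < n, 0 < l i)
    (hind : ∀ d, 1 ≤ d → ∀ a ∈ F d, ∃ N : ℕ,
      a ^ N ∈ leadD (fun (i : Fin n) c => θ (g i) c - c) F (fun i => l i) (N * d))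
    {i : ℕ} (hi : i < n) (d : ℕ) (hd : 1 ≤ d) (a : iv θ (H i))
    (ha : a ∈ restr F (iv θ (H i)) d) : ∃ N : ℕ, a ^ N ∈
      leadI (fun c => actG θ hfl i hi c - c) (restr F (iv θ (H i))) (l i) (N * d) := by
  classical
  have ha' : (a : B) ∈ F d := ha
  have haT : (a : B) ∈ F (d : ℤ).toNat := by rwa [Int.toNat_natCast]
  let xT : SS hF θ hst (H i) := ⟨hmR k hF d a haT, by
    rw [mem_SS_iff]
    intro e
    rw [coe_hmR, AddMonoidAlgebra.coeff_single, Finsupp.single_apply]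
    split_ifs
    · exact a.2
    · exact Subalgebra.zero_mem _⟩
  by_contra hcon
  push Not at hcon
  have h1 : xT ∉ (JJ hF θ hst l hdiv i hi).radical := by
    rintro ⟨N, hN⟩
    apply hcon N
    have h2 := cf_mem hF θ hst hfl l hdiv hi _ hN (N * d)
    have h3 : cf hF θ hst i ((N * d : ℕ) : ℤ) (xT ^ N) = a ^ N := by
      apply Subtype.ext
      have h4 : (((xT ^ N : SS hF θ hst (H i)) : reesZ k hF) : AddMonoidAlgebra B ℤ) =
          (AddMonoidAlgebra.single (d : ℤ) (a : B)) ^ N := rfl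
      change (((xT ^ N : SS hF θ hst (H i)) : reesZ k hF) :
        AddMonoidAlgebra B ℤ).coeff ((N * d : ℕ) : ℤ) = _
      rw [h4, AddMonoidAlgebra.single_pow, AddMonoidAlgebra.coeff_single, Finsupp.single_apply,
        if_pos]
      · rfl
      · push_cast
        rw [nsmul_eq_mul]
    rwa [h3] at h2
  rw [Ideal.radical_eq_sInf, Submodule.mem_sInf] at h1
  push Not at h1
  obtain ⟨q, ⟨hJq, hq⟩, hxq⟩ := h1
  obtain ⟨Q, hQ, hQq⟩ := exists_prime hF θ hst (H i) q hq
  obtain ⟨κ, _, π, hπ⟩ := exists_residue Q hQ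
  have hsS : ∀ j, sR k hF ∈ SS hF θ hst (H j) := fun j h _ => mp_sR hF _ _
  have hπs : π (sR k hF) = 0 := by
    rw [hπ]
    refine (hQq ⟨_, hsS i⟩).2 (hJq ?_)
    exact Ideal.subset_span (Or.inl rfl)
  have hπx : π (hmR k hF d a haT) ≠ 0 := by
    rw [Ne, hπ]
    exact fun h => hxq ((hQq xT).1 h)
  obtain ⟨b, hb⟩ := exists_det hF θ l hdiv hl hind π hπs d hd a ha' hπx
  have hpR : ((p : ℕ) : reesZ k hF) = 0 := by
    rw [← map_natCast (algebraMap k (reesZ k hF)), hpk, map_zero]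
  let τ : ℕ → reesZ k hF →+* reesZ k hF := fun i => rho hF θ hst (g i)
  let Θ : ℕ → reesZ k hF → reesZ k hF := fun i => if hi : i < n then thG hF θ l hdiv i hi else id
  have hΘ : ∀ i (hi : i < n), Θ i = thG hF θ l hdiv i hi := fun i hi => dif_pos hi
  have key := exists_ne (R := reesZ k hF) (κ := κ) hp hpR π (sR k hF) (sR_ne_zero hF) hπs n
    (fun i => SS hF θ hst (H i)) τ l hl Θ (fun i _ => mp_sR hF _ _) ?_ ?_ ?_ ?_ ?_ ?_
    (fun j _ => hsS j) b ?_ i hi
  · obtain ⟨x, hxS, hx⟩ := key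
    apply hx
    rw [hΘ i hi, hπ]
    refine (hQq ⟨_, thG_mem hF θ hst hfl l hdiv hi hxS⟩).2 (hJq ?_)
    exact Ideal.subset_span (Or.inr ⟨⟨x, hxS⟩, rfl⟩)
  · intro i hi f
    rw [hΘ i hi]
    exact mp_sub hF _ _ (l i) (hdiv i hi) f
  · rw [eq_top_iff]
    intro f _ h hh
    rw [hfl.bot, Subgroup.mem_bot] at hh
    rw [hh]
    exact rho_one hF θ hst f
  · intro i hi f
    rw [mem_SS_iff, mem_SS_iff]
    constructor
    · intro h
      refine ⟨fun d => ((mem_succ_iff θ hfl hi _).1 (h d)).1, ?_⟩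
      apply rees_ext
      intro d
      rw [coeff_rho]
      exact ((mem_succ_iff θ hfl hi _).1 (h d)).2
    · rintro ⟨h1, h2⟩ d
      refine (mem_succ_iff θ hfl hi _).2 ⟨h1 d, ?_⟩
      have h3 := congrArg (fun y : reesZ k hF => (y : AddMonoidAlgebra B ℤ).coeff d) h2
      change ((rho hF θ hst (g i) f : reesZ k hF) : AddMonoidAlgebra B ℤ).coeff d = _ at h3
      rwa [coeff_rho] at h3
  · intro i hi f hf
    rw [mem_SS_iff] at hf ⊢
    intro d
    rw [coeff_rho]
    exact diff_mem θ hfl hi (hf d)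
  · intro i hi f hf
    rw [hΘ i hi]
    exact thG_mem hF θ hst hfl l hdiv hi hf
  · intro i hi f hf
    change (rho hF θ hst (g i))^[p] f = f
    rw [← rho_pow]
    exact hf _ (hfl.pow i hi)
  · have h2 : (Matrix.of fun i j : Fin n => π (Θ i (b j))) =
        Matrix.of fun i j : Fin n => π (thG hF θ l hdiv i i.2 (b j)) := by
      ext i j
      change π (Θ i (b j)) = _
      rw [hΘ i i.2]
      rfl
    rw [h2]
    exact hb

/-- The fixed points on the rings of invariants. -/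
theorem fix_step (hfix : ∀ i < n, ∀ x ∈ H (i + 1), x ≠ 1 → ∀ P : Ideal B, P.IsPrime →
      (∀ a, θ x a - a ∈ P) → F 1 ≤ P)
    {i : ℕ} (hi : i < n) (P : Ideal (iv θ (H i))) (hP : P.IsPrime)
    (h : ∀ a, actG θ hfl i hi a - a ∈ P) : restr F (iv θ (H i)) 1 ≤ P := by
  let act : MulSemiringAction G B := MulSemiringAction.compHom B θ
  have hact : ∀ (x : G) (b : B), x • b = θ x b := fun _ _ => rfl
  have hinv : Algebra.IsInvariant (iv θ (H i)) B (H i) :=
    ⟨fun b hb => ⟨⟨b, fun x hx => hb ⟨x, hx⟩⟩, rfl⟩⟩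
  have hcomm : SMulCommClass (H i) (iv θ (H i)) B := by
    refine ⟨fun x a b => ?_⟩
    change θ x ((a : B) * b) = (a : B) * θ x b
    rw [map_mul, a.2 x x.2]
  have hint : Algebra.IsIntegral (iv θ (H i)) B :=
    Algebra.IsInvariant.isIntegral (iv θ (H i)) B (H i)
  obtain ⟨Q, hQ, hQP⟩ := Ideal.exists_ideal_over_prime_of_isIntegral_of_isDomain
    (S := B) P (by
      intro a ha
      have h1 : a = 0 := Subtype.ext (RingHom.mem_ker.1 ha)
      rw [h1]
      exact P.zero_mem)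
  have hQP' : ∀ a : iv θ (H i), (a : B) ∈ Q ↔ a ∈ P := by
    intro a
    conv_rhs => rw [← hQP]
    exact Iff.rfl
  obtain ⟨x, hx, hx'⟩ := inertia_lift (A := iv θ (H i)) (B := B) (H i) (g i)
    (fun a => ⟨⟨θ (g i)⁻¹ a, diff_mem' θ hfl hi a.2⟩, rfl⟩) Q (fun a => (hQP' _).2 (h a))
  have hne : x * g i ≠ 1 := by
    intro h1
    apply hfl.notMem i hi
    have h2 : g i = x⁻¹ := (eq_inv_of_mul_eq_one_right h1)
    rw [h2]
    exact (H i).inv_mem hx
  have h3 := hfix i hi (x * g i) ((H (i + 1)).mul_mem (hfl.le i hi hx) (hfl.mem i hi)) hne Q hQ hx'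
  intro a ha
  exact (hQP' a).1 (h3 ha)

include hF hst hfl hdiv in
/-- The steps of the tower. -/
theorem sstep (hp : p.Prime) (hpk : (p : k) = 0) (hl : ∀ i < n, 0 < l i)
    (hind : ∀ d, 1 ≤ d → ∀ a ∈ F d, ∃ N : ℕ,
      a ^ N ∈ leadD (fun (i : Fin n) c => θ (g i) c - c) F (fun i => l i) (N * d))
    (hfix : ∀ i < n, ∀ x ∈ H (i + 1), x ≠ 1 → ∀ P : Ideal B, P.IsPrime →
      (∀ a, θ x a - a ∈ P) → F 1 ≤ P)
    {i : ℕ} (hi : i < n) : SStep p F (iv θ (H i)) (iv θ (H (i + 1))) := by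
  refine ⟨actG θ hfl i hi, l i, ?_, hl i hi, ?_, ?_, ?_, ?_⟩
  · intro b
    apply Subtype.ext
    have h1 : ∀ (m : ℕ) (b : iv θ (H i)),
        (((actG θ hfl i hi)^[m] b : iv θ (H i)) : B) = (θ (g i))^[m] b := by
      intro m
      induction m with
      | zero => intro b; rfl
      | succ m ih =>
        intro b
        rw [Function.iterate_succ_apply', Function.iterate_succ_apply', ← ih]
        rfl
    rw [h1]
    exact iter_id θ hfl hi b.2
  · intro d a ha
    exact hdiv i hi d a ha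
  · intro P hP h
    exact fix_step θ hfl hfix hi P hP h
  · intro d hd a ha
    exact lead_step hF θ hst hfl l hdiv hp hpk hl hind hi d hd a ha
  · intro b
    rw [mem_succ_iff θ hfl hi]
    constructor
    · rintro ⟨h1, h2⟩
      exact ⟨h1, Subtype.ext h2⟩
    · rintro ⟨h1, h2⟩
      exact ⟨h1, congrArg Subtype.val h2⟩

end act

end Pool.Agent.Helper44x.IL
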